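import Mathlib

set_option autoImplicit false

namespace Pool.Agent.Results.MP_232fda_co.MixedCritical

/-- `c` is a majority C-colouring with `k` nonempty classes -/
def IsMajC {V : Type} (G : SimpleGraph V) (k : ℕ) (c : V → Fin k) : Prop :=
  Function.Surjective c ∧
    ∀ v, (G.neighborSet v).ncard ≤ 2 * {w | w ∈ G.neighborSet v ∧ c w = c v}.ncard

/-- the majority C-chromatic number -/
noncomputable def mc {V : Type} (G : SimpleGraph V) : ℕ :=
  sSup {k | ∃ c : V → Fin k, IsMajC G k c}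

/-- `G` is mc-edge-critical -/
def Critical {V : Type} (G : SimpleGraph V) : Prop :=
  G.edgeSet.Nonempty ∧ ∀ e ∈ G.edgeSet, mc (G.deleteEdges {e}) ≠ mc G

/-- neighbour lists of the example -/
def nbl (v : Fin 20) : List (Fin 20) :=
  ([[1, 2, 3, 6], [0, 2, 4, 7], [0, 1, 5, 8], [0, 9, 11, 12, 13], [1, 9, 16],
    [2, 9, 17], [0, 10, 11, 14, 15], [1, 10, 18], [2, 10, 19], [3, 4, 5],
    [6, 7, 8], [3, 6], [3], [3], [6],
    [6], [4], [5], [7], [8]] : List (List (Fin 20))).getD v []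

/-- the example -/
def ex : SimpleGraph (Fin 20) where
  Adj v w := w ∈ nbl v
  symm := ⟨by decide +kernel⟩
  loopless := ⟨by decide +kernel⟩

/-- neighbour lists after the deletion of the edge `ab` -/
def nblD (a b v : Fin 20) : List (Fin 20) :=
  (nbl v).filter fun w => !((v == a && w == b) || (v == b && w == a))

lemma adj_del (a b v w : Fin 20) :
    (ex.deleteEdges {s(a, b)}).Adj v w ↔ w ∈ nblD a b v := by
  rw [SimpleGraph.deleteEdges_adj, Set.mem_singleton_iff, nblD, List.mem_filter]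
  show w ∈ nbl v ∧ _ ↔ _
  rw [Sym2.eq_iff]
  simp only [Bool.not_eq_true', Bool.or_eq_false_iff, Bool.and_eq_false_iff, beq_eq_false_iff_ne]
  tauto

lemma nbl_nodup : ∀ v, (nbl v).Nodup := by decide +kernel

lemma nblD_nodup (a b v : Fin 20) : (nblD a b v).Nodup := (nbl_nodup v).filter _

/-- the majority condition in terms of neighbour lists -/
lemma maj_iff {k : ℕ} (H : SimpleGraph (Fin 20)) (L : Fin 20 → List (Fin 20))
    (hL : ∀ v w, H.Adj v w ↔ w ∈ L v) (hn : ∀ v, (L v).Nodup) (c : Fin 20 → Fin k) (v : Fin 20) :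
    ((H.neighborSet v).ncard ≤ 2 * {w | w ∈ H.neighborSet v ∧ c w = c v}.ncard) ↔
      (L v).length ≤ 2 * ((L v).filter fun w => decide (c w = c v)).length := by
  have h1 : H.neighborSet v = ((L v).toFinset : Set (Fin 20)) := by
    ext w
    simp [hL]
  have h2 : {w | w ∈ H.neighborSet v ∧ c w = c v} =
      (((L v).filter fun w => decide (c w = c v)).toFinset : Set (Fin 20)) := by
    ext w
    simp [hL]
  rw [h2, h1, Set.ncard_coe_finset, Set.ncard_coe_finset, List.toFinset_card_of_nodup (hn v),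
    List.toFinset_card_of_nodup ((hn v).filter _)]

lemma bdd {V : Type} [Fintype V] (G : SimpleGraph V) :
    BddAbove {k | ∃ c : V → Fin k, IsMajC G k c} := by
  refine ⟨Fintype.card V, ?_⟩
  rintro k ⟨c, hc, _⟩
  simpa using Fintype.card_le_of_surjective c hc

lemma le_mc {V : Type} [Fintype V] (G : SimpleGraph V) {k : ℕ} (c : V → Fin k)
    (hc : IsMajC G k c) : k ≤ mc G := le_csSup (bdd G) ⟨c, hc⟩

lemma mc_le {V : Type} [Fintype V] (G : SimpleGraph V) (m : ℕ)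
    (h : ∀ (k : ℕ) (c : V → Fin k), IsMajC G k c → k ≤ m) : mc G ≤ m := by
  apply csSup_le'
  rintro k ⟨c, hc⟩
  exact h k c hc

lemma card_le {V : Type} {k : ℕ} (c : V → Fin k) (hs : Function.Surjective c)
    (S : Finset (Fin k)) (hS : ∀ v, c v ∈ S) : k ≤ S.card := by
  have : (Finset.univ : Finset (Fin k)) ⊆ S := by
    intro x _
    obtain ⟨v, rfl⟩ := hs x
    exact hS v
  simpa using Finset.card_le_card this

/-- Boolean check of a colouring with `5` colours after deletion of `ab` -/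
def chk (a b : Fin 20) (c : Fin 20 → Fin 5) : Bool :=
  decide ((∀ v, (nblD a b v).length ≤ 2 * ((nblD a b v).filter fun w => decide (c w = c v)).length) ∧
    ∀ j, ∃ v, c v = j)

/-- the edges whose deletion increases `mc`, with colourings -/
def ups : List ((Fin 20 × Fin 20) × List (Fin 5)) :=
  [((0, 3), [0, 0, 0, 1, 2, 2, 3, 4, 4, 2, 4, 3, 1, 1, 3, 3, 2, 2, 4, 4]),
   ((0, 6), [0, 0, 0, 1, 2, 2, 3, 4, 4, 2, 4, 1, 1, 1, 3, 3, 2, 2, 4, 4]),
   ((1, 4), [0, 0, 0, 1, 2, 1, 3, 4, 4, 1, 4, 3, 1, 1, 3, 3, 2, 1, 4, 4]),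
   ((1, 7), [0, 0, 0, 1, 2, 2, 3, 4, 3, 2, 3, 1, 1, 1, 3, 3, 2, 2, 4, 3]),
   ((2, 5), [0, 0, 0, 1, 1, 2, 3, 4, 4, 1, 4, 3, 1, 1, 3, 3, 1, 2, 4, 4]),
   ((2, 8), [0, 0, 0, 1, 2, 2, 3, 3, 4, 2, 3, 1, 1, 1, 3, 3, 2, 2, 3, 4]),
   ((3, 9), [0, 0, 0, 1, 2, 0, 3, 4, 4, 2, 4, 3, 1, 1, 3, 3, 2, 0, 4, 4]),
   ((6, 10), [0, 0, 0, 1, 2, 2, 3, 4, 0, 2, 4, 1, 1, 1, 3, 3, 2, 2, 4, 0]),
   ((4, 9), [0, 0, 0, 1, 2, 3, 4, 4, 0, 3, 4, 1, 1, 1, 4, 4, 2, 3, 4, 0]),
   ((7, 10), [0, 0, 0, 1, 2, 2, 3, 4, 0, 2, 3, 1, 1, 1, 3, 3, 2, 2, 4, 0]),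
   ((5, 9), [0, 0, 0, 1, 2, 3, 4, 4, 0, 2, 4, 1, 1, 1, 4, 4, 2, 3, 4, 0]),
   ((8, 10), [0, 0, 0, 1, 2, 2, 3, 0, 4, 2, 3, 1, 1, 1, 3, 3, 2, 2, 0, 4]),
   ((3, 11), [0, 0, 0, 1, 2, 2, 3, 4, 4, 2, 4, 3, 1, 1, 3, 3, 2, 2, 4, 4]),
   ((6, 11), [0, 0, 0, 1, 2, 2, 3, 4, 4, 2, 4, 1, 1, 1, 3, 3, 2, 2, 4, 4]),
   ((3, 12), [0, 0, 0, 1, 2, 2, 3, 3, 0, 2, 3, 1, 4, 1, 3, 3, 2, 2, 3, 0]),
   ((3, 13), [0, 0, 0, 1, 2, 2, 3, 3, 0, 2, 3, 1, 1, 4, 3, 3, 2, 2, 3, 0]),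
   ((6, 14), [0, 0, 0, 1, 2, 2, 3, 3, 0, 2, 3, 1, 1, 1, 4, 3, 2, 2, 3, 0]),
   ((6, 15), [0, 0, 0, 1, 2, 2, 3, 3, 0, 2, 3, 1, 1, 1, 3, 4, 2, 2, 3, 0]),
   ((4, 16), [0, 0, 0, 1, 2, 2, 3, 3, 0, 2, 3, 1, 1, 1, 3, 3, 4, 2, 3, 0]),
   ((5, 17), [0, 0, 0, 1, 2, 2, 3, 3, 0, 2, 3, 1, 1, 1, 3, 3, 2, 4, 3, 0]),
   ((7, 18), [0, 0, 0, 1, 2, 2, 3, 3, 0, 2, 3, 1, 1, 1, 3, 3, 2, 2, 4, 0]),
   ((8, 19), [0, 0, 0, 1, 2, 2, 3, 3, 0, 2, 3, 1, 1, 1, 3, 3, 2, 2, 3, 4])]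

/-- colouring from a list -/
def ofL {k : ℕ} (l : List (Fin (k + 1))) (v : Fin 20) : Fin (k + 1) := l.getD v 0

lemma ups_ok : ∀ p ∈ ups, chk p.1.1 p.1.2 (ofL p.2) = true := by decide +kernel

lemma up_edge (p : (Fin 20 × Fin 20) × List (Fin 5)) (hp : p ∈ ups) :
    5 ≤ mc (ex.deleteEdges {s(p.1.1, p.1.2)}) := by
  have h := of_decide_eq_true (ups_ok p hp)
  apply le_mc _ (ofL p.2)
  refine ⟨fun j => h.2 j, fun v => ?_⟩
  rw [maj_iff _ _ (adj_del p.1.1 p.1.2) (nblD_nodup _ _)]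
  exact h.1 v

/-- a colouring of the example with four classes -/
def base : Fin 20 → Fin 4 := ofL [0, 0, 0, 1, 2, 2, 3, 3, 0, 2, 3, 1, 1, 1, 3, 3, 2, 2, 3, 0]

lemma base_ok : (∀ v, (nbl v).length ≤ 2 * ((nbl v).filter fun w => decide (base w = base v)).length) ∧
    ∀ j, ∃ v, base v = j := by decide +kernel

lemma four_le : 4 ≤ mc ex := by
  apply le_mc _ base
  refine ⟨fun j => base_ok.2 j, fun v => ?_⟩
  rw [maj_iff ex nbl (fun _ _ => Iff.rfl) nbl_nodup]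
  exact base_ok.1 v


section upper
variable {α : Type} [DecidableEq α]

/-- the majority condition at `v` for a neighbour list `l` -/
def Cond (c : Fin 20 → α) (v : Fin 20) (l : List (Fin 20)) : Prop :=
  l.length ≤ 2 * (l.filter fun w => decide (c w = c v)).length

lemma cond1 {c : Fin 20 → α} {v a : Fin 20} (h : Cond c v [a]) : c a = c v := by
  unfold Cond at h
  by_contra hcon
  simp [hcon] at h

lemma cond2 {c : Fin 20 → α} {v a b : Fin 20} (h : Cond c v [a, b]) : c a = c v ∨ c b = c v := by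
  unfold Cond at h
  by_contra hcon
  push Not at hcon
  simp [hcon.1, hcon.2] at h

lemma cond3 {c : Fin 20 → α} {v a b d : Fin 20} (h : Cond c v [a, b, d]) :
    (c a = c v ∧ c b = c v) ∨ (c a = c v ∧ c d = c v) ∨ (c b = c v ∧ c d = c v) := by
  unfold Cond at h
  by_cases h1 : c a = c v <;> by_cases h2 : c b = c v <;> by_cases h3 : c d = c v <;>
    simp [h1, h2, h3] at h ⊢

lemma cond4 {c : Fin 20 → α} {v a b d e : Fin 20} (h : Cond c v [a, b, d, e]) :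
    (c a = c v ∧ c b = c v) ∨ (c a = c v ∧ c d = c v) ∨ (c a = c v ∧ c e = c v) ∨
      (c b = c v ∧ c d = c v) ∨ (c b = c v ∧ c e = c v) ∨ (c d = c v ∧ c e = c v) := by
  unfold Cond at h
  by_cases h1 : c a = c v <;> by_cases h2 : c b = c v <;> by_cases h3 : c d = c v <;>
    by_cases h4 : c e = c v <;>
    simp [h1, h2, h3, h4] at h ⊢

lemma cond5 {c : Fin 20 → α} {v a b d e f : Fin 20} (h : Cond c v [a, b, d, e, f]) :
    c a = c v ∨ c b = c v ∨ c d = c v := by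
  unfold Cond at h
  by_contra hcon
  push Not at hcon
  by_cases h4 : c e = c v <;> by_cases h5 : c f = c v <;>
    simp [hcon.1, hcon.2.1, hcon.2.2, h4, h5] at h

/-- the conditions at the vertices outside the core -/
structure Facts (c : Fin 20 → α) : Prop where
  l12 : c 12 = c 3
  l13 : c 13 = c 3
  l14 : c 14 = c 6
  l15 : c 15 = c 6
  l16 : c 16 = c 4
  l17 : c 17 = c 5
  l18 : c 18 = c 7
  l19 : c 19 = c 8
  a1 : c 0 = c 3 ∨ c 9 = c 3 ∨ c 11 = c 3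
  b1 : c 0 = c 6 ∨ c 10 = c 6 ∨ c 11 = c 6
  a2 : c 1 = c 4 ∨ c 9 = c 4
  a3 : c 2 = c 5 ∨ c 9 = c 5
  b2 : c 1 = c 7 ∨ c 10 = c 7
  b3 : c 2 = c 8 ∨ c 10 = c 8
  x1 : (c 3 = c 9 ∧ c 4 = c 9) ∨ (c 3 = c 9 ∧ c 5 = c 9) ∨ (c 4 = c 9 ∧ c 5 = c 9)
  x2 : (c 6 = c 10 ∧ c 7 = c 10) ∨ (c 6 = c 10 ∧ c 8 = c 10) ∨ (c 7 = c 10 ∧ c 8 = c 10)
  y : c 3 = c 11 ∨ c 6 = c 11

lemma facts_of (c : Fin 20 → α) (L : Fin 20 → List (Fin 20)) (h : ∀ v, Cond c v (L v))
    (hL : ∀ v : Fin 20, 3 ≤ (v : ℕ) → L v = nbl v) : Facts c := by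
  have g : ∀ v : Fin 20, 3 ≤ (v : ℕ) → Cond c v (nbl v) := by
    intro v hv
    rw [← hL v hv]
    exact h v
  refine ⟨(cond1 (g 12 (by decide))).symm, (cond1 (g 13 (by decide))).symm,
    (cond1 (g 14 (by decide))).symm, (cond1 (g 15 (by decide))).symm,
    (cond1 (g 16 (by decide))).symm, (cond1 (g 17 (by decide))).symm,
    (cond1 (g 18 (by decide))).symm, (cond1 (g 19 (by decide))).symm,
    cond5 (g 3 (by decide)), cond5 (g 6 (by decide)), ?_, ?_, ?_, ?_,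
    cond3 (g 9 (by decide)), cond3 (g 10 (by decide)), cond2 (g 11 (by decide))⟩
  · rcases cond3 (g 4 (by decide)) with h | h | h
    · exact Or.inl h.1
    · exact Or.inl h.1
    · exact Or.inr h.1
  · rcases cond3 (g 5 (by decide)) with h | h | h
    · exact Or.inl h.1
    · exact Or.inl h.1
    · exact Or.inr h.1
  · rcases cond3 (g 7 (by decide)) with h | h | h
    · exact Or.inl h.1
    · exact Or.inl h.1
    · exact Or.inr h.1
  · rcases cond3 (g 8 (by decide)) with h | h | h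
    · exact Or.inl h.1
    · exact Or.inl h.1
    · exact Or.inr h.1

omit [DecidableEq α] in
lemma all_of {c : Fin 20 → α} (F : Facts c) (P : α → Prop) (h0 : P (c 0)) (h1 : P (c 1))
    (h2 : P (c 2)) (h3 : P (c 3)) (h4 : P (c 4)) (h5 : P (c 5)) (h6 : P (c 6)) (h7 : P (c 7))
    (h8 : P (c 8)) : ∀ v, P (c v) := by
  have h9 : P (c 9) := by
    rcases F.x1 with h | h | h
    · rw [← h.1]; exact h3
    · rw [← h.1]; exact h3
    · rw [← h.1]; exact h4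
  have h10 : P (c 10) := by
    rcases F.x2 with h | h | h
    · rw [← h.1]; exact h6
    · rw [← h.1]; exact h6
    · rw [← h.1]; exact h7
  have h11 : P (c 11) := by
    rcases F.y with h | h
    · rw [← h]; exact h3
    · rw [← h]; exact h6
  have h12 : P (c 12) := by rw [F.l12]; exact h3
  have h13 : P (c 13) := by rw [F.l13]; exact h3
  have h14 : P (c 14) := by rw [F.l14]; exact h6
  have h15 : P (c 15) := by rw [F.l15]; exact h6
  have h16 : P (c 16) := by rw [F.l16]; exact h4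
  have h17 : P (c 17) := by rw [F.l17]; exact h5
  have h18 : P (c 18) := by rw [F.l18]; exact h7
  have h19 : P (c 19) := by rw [F.l19]; exact h8
  have key : ∀ n (hn : n < 20), P (c ⟨n, hn⟩) := by
    intro n hn
    interval_cases n <;> assumption
  exact fun v => key v.1 v.2

/-- the core condition at a vertex with core neighbours `p, q` and hubs `r, s` -/
def Core4 (x p q r s : α) : Prop :=
  (p = x ∧ q = x) ∨ (p = x ∧ r = x) ∨ (p = x ∧ s = x) ∨ (q = x ∧ r = x) ∨ (q = x ∧ s = x) ∨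
    (r = x ∧ s = x)

/-- the core condition after the loss of a core neighbour -/
def Core3 (x q r s : α) : Prop := (q = x ∧ r = x) ∨ (q = x ∧ s = x) ∨ (r = x ∧ s = x)

lemma cover {k : ℕ} {c : Fin 20 → Fin k} (F : Facts c) (hs : Function.Surjective c)
    (S : Finset (Fin k)) (h0 : c 0 ∈ S) (h1 : c 1 ∈ S) (h2 : c 2 ∈ S) (h3 : c 3 ∈ S) (h4 : c 4 ∈ S)
    (h5 : c 5 ∈ S) (h6 : c 6 ∈ S) (h7 : c 7 ∈ S) (h8 : c 8 ∈ S) : k ≤ S.card :=
  card_le c hs S (all_of F (fun x => x ∈ S) h0 h1 h2 h3 h4 h5 h6 h7 h8)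

omit [DecidableEq α] in
/-- the colours of the hubs `a₁, a₂, a₃` are two of them -/
lemma two_a {c : Fin 20 → α} (F : Facts c) :
    ∃ p q, (c 3 = p ∨ c 3 = q) ∧ (c 4 = p ∨ c 4 = q) ∧ (c 5 = p ∨ c 5 = q) ∧
      ((p = c 3 ∧ q = c 4) ∨ (p = c 3 ∧ q = c 5)) := by
  rcases F.x1 with ⟨h, h'⟩ | ⟨h, h'⟩ | ⟨h, h'⟩
  · exact ⟨c 3, c 5, Or.inl rfl, Or.inl (h'.trans h.symm), Or.inr rfl, Or.inr ⟨rfl, rfl⟩⟩
  · exact ⟨c 3, c 4, Or.inl rfl, Or.inr rfl, Or.inl (h'.trans h.symm), Or.inl ⟨rfl, rfl⟩⟩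
  · exact ⟨c 3, c 4, Or.inl rfl, Or.inr rfl, Or.inr (h'.trans h.symm), Or.inl ⟨rfl, rfl⟩⟩

omit [DecidableEq α] in
lemma two_b {c : Fin 20 → α} (F : Facts c) :
    ∃ p q, (c 6 = p ∨ c 6 = q) ∧ (c 7 = p ∨ c 7 = q) ∧ (c 8 = p ∨ c 8 = q) ∧
      ((p = c 6 ∧ q = c 7) ∨ (p = c 6 ∧ q = c 8)) := by
  rcases F.x2 with ⟨h, h'⟩ | ⟨h, h'⟩ | ⟨h, h'⟩
  · exact ⟨c 6, c 8, Or.inl rfl, Or.inl (h'.trans h.symm), Or.inr rfl, Or.inr ⟨rfl, rfl⟩⟩
  · exact ⟨c 6, c 7, Or.inl rfl, Or.inr rfl, Or.inl (h'.trans h.symm), Or.inl ⟨rfl, rfl⟩⟩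
  · exact ⟨c 6, c 7, Or.inl rfl, Or.inr rfl, Or.inr (h'.trans h.symm), Or.inl ⟨rfl, rfl⟩⟩

lemma four {k : ℕ} {c : Fin 20 → Fin k} (F : Facts c) (hs : Function.Surjective c)
    (h0 : Core4 (c 0) (c 1) (c 2) (c 3) (c 6))
    (h1 : Core4 (c 1) (c 0) (c 2) (c 4) (c 7)) (h2 : Core4 (c 2) (c 0) (c 1) (c 5) (c 8)) :
    k ≤ 4 := by
  have hu : (c 0 ∈ ({c 3, c 4, c 5, c 6, c 7, c 8} : Finset (Fin k)) ∧
      c 1 ∈ ({c 3, c 4, c 5, c 6, c 7, c 8} : Finset (Fin k)) ∧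
      c 2 ∈ ({c 3, c 4, c 5, c 6, c 7, c 8} : Finset (Fin k))) ∨
      (c 1 = c 0 ∧ c 2 = c 0 ∧ c 0 ∉ ({c 3, c 4, c 5, c 6, c 7, c 8} : Finset (Fin k))) := by
    simp only [Finset.mem_insert, Finset.mem_singleton]
    unfold Core4 at h0 h1 h2
    clear F hs
    grind
  rcases hu with ⟨g0, g1, g2⟩ | ⟨g1, g2, g0⟩
  · obtain ⟨p, q, p1, p2, p3, _⟩ := two_a F
    obtain ⟨r, t, r1, r2, r3, _⟩ := two_b F
    simp only [Finset.mem_insert, Finset.mem_singleton] at g0 g1 g2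
    refine (cover F hs ({p, q, r, t} : Finset (Fin k)) ?_ ?_ ?_ ?_ ?_ ?_ ?_ ?_ ?_).trans
      Finset.card_le_four <;> simp only [Finset.mem_insert, Finset.mem_singleton] <;> grind
  · obtain ⟨_, _, _, _, _, _, _, _, a1, b1, a2, a3, b2, b3, x1, x2, y⟩ := id F
    simp only [Finset.mem_insert, Finset.mem_singleton, not_or] at g0
    have e4 : c 9 = c 4 := by grind
    have e5 : c 9 = c 5 := by grind
    have e7 : c 10 = c 7 := by grind
    have e8 : c 10 = c 8 := by grind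
    have a1' : c 9 = c 3 ∨ c 11 = c 3 := by grind
    have b1' : c 10 = c 6 ∨ c 11 = c 6 := by grind
    clear a1 b1 a2 a3 b2 b3 x1 x2 y
    rcases a1' with h | h
    · refine (cover F hs ({c 0, c 3, c 6, c 7} : Finset (Fin k)) ?_ ?_ ?_ ?_ ?_ ?_ ?_ ?_ ?_).trans
        Finset.card_le_four <;> simp only [Finset.mem_insert, Finset.mem_singleton] <;> grind
    · rcases b1' with h' | h'
      · refine (cover F hs ({c 0, c 3, c 4, c 6} : Finset (Fin k)) ?_ ?_ ?_ ?_ ?_ ?_ ?_ ?_ ?_).trans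
          Finset.card_le_four <;> simp only [Finset.mem_insert, Finset.mem_singleton] <;> grind
      · refine (cover F hs ({c 0, c 3, c 4, c 7} : Finset (Fin k)) ?_ ?_ ?_ ?_ ?_ ?_ ?_ ?_ ?_).trans
          Finset.card_le_four <;> simp only [Finset.mem_insert, Finset.mem_singleton] <;> grind

lemma three {k : ℕ} {c : Fin 20 → Fin k} (F : Facts c) (hs : Function.Surjective c)
    (hu0 : c 0 = c 3 ∨ c 0 = c 4 ∨ c 0 = c 5 ∨ c 0 = c 6 ∨ c 0 = c 7 ∨ c 0 = c 8)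
    (hu1 : c 1 = c 3 ∨ c 1 = c 4 ∨ c 1 = c 5 ∨ c 1 = c 6 ∨ c 1 = c 7 ∨ c 1 = c 8)
    (hu2 : c 2 = c 3 ∨ c 2 = c 4 ∨ c 2 = c 5 ∨ c 2 = c 6 ∨ c 2 = c 7 ∨ c 2 = c 8)
    (hcon : ¬ (c 3 = c 4 ∧ c 3 = c 5) → ¬ (c 6 = c 7 ∧ c 6 = c 8) →
      (∀ i j : Fin 20, (i = 3 ∨ i = 4 ∨ i = 5) → (j = 6 ∨ j = 7 ∨ j = 8) → c i ≠ c j) → False) :
    k ≤ 3 := by
  obtain ⟨p, q, p1, p2, p3, pp⟩ := two_a F
  obtain ⟨r, t, r1, r2, r3, rr⟩ := two_b F
  have il : ∀ w : Fin k, (w = p ∨ w = q) → (w = p ∨ w = q ∨ w = r ∨ w = t) :=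
    fun w h => h.elim Or.inl (fun h => Or.inr (Or.inl h))
  have ir : ∀ w : Fin k, (w = r ∨ w = t) → (w = p ∨ w = q ∨ w = r ∨ w = t) :=
    fun w h => Or.inr (Or.inr h)
  have m3 := il _ p1
  have m4 := il _ p2
  have m5 := il _ p3
  have m6 := ir _ r1
  have m7 := ir _ r2
  have m8 := ir _ r3
  have mu : ∀ w, (w = c 3 ∨ w = c 4 ∨ w = c 5 ∨ w = c 6 ∨ w = c 7 ∨ w = c 8) →
      (w = p ∨ w = q ∨ w = r ∨ w = t) := by
    intro w hw
    rcases hw with h | h | h | h | h | h <;> rw [h] <;> assumption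
  have m0 := mu _ hu0
  have m1 := mu _ hu1
  have m2 := mu _ hu2
  have cov : ∀ x y z : Fin k, (p = x ∨ p = y ∨ p = z) → (q = x ∨ q = y ∨ q = z) →
      (r = x ∨ r = y ∨ r = z) → (t = x ∨ t = y ∨ t = z) → k ≤ 3 := by
    intro x y z g1 g2 g3 g4
    have mm : ∀ w : Fin k, (w = p ∨ w = q ∨ w = r ∨ w = t) → w ∈ ({x, y, z} : Finset (Fin k)) := by
      intro w hw
      simp only [Finset.mem_insert, Finset.mem_singleton]
      rcases hw with h | h | h | h <;> rw [h] <;> assumption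
    exact (cover F hs ({x, y, z} : Finset (Fin k)) (mm _ m0) (mm _ m1) (mm _ m2)
      (mm _ m3) (mm _ m4) (mm _ m5) (mm _ m6) (mm _ m7) (mm _ m8)).trans Finset.card_le_three
  by_contra hk
  have d1 : p ≠ q := fun h => hk (cov p r t (by simp) (by simp [h]) (by simp) (by simp))
  have d2 : p ≠ r := fun h => hk (cov p q t (by simp) (by simp) (by simp [h]) (by simp))
  have d3 : p ≠ t := fun h => hk (cov p q r (by simp) (by simp) (by simp) (by simp [h]))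
  have d4 : q ≠ r := fun h => hk (cov p q t (by simp) (by simp) (by simp [h]) (by simp))
  have d5 : q ≠ t := fun h => hk (cov p q r (by simp) (by simp) (by simp) (by simp [h]))
  have d6 : r ≠ t := fun h => hk (cov p q r (by simp) (by simp) (by simp) (by simp [h]))
  refine hcon ?_ ?_ ?_
  · rintro ⟨h, h'⟩
    rcases pp with ⟨e1, e2⟩ | ⟨e1, e2⟩
    · exact d1 (by rw [e1, e2, h])
    · exact d1 (by rw [e1, e2, h'])
  · rintro ⟨h, h'⟩
    rcases rr with ⟨e1, e2⟩ | ⟨e1, e2⟩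
    · exact d6 (by rw [e1, e2, h])
    · exact d6 (by rw [e1, e2, h'])
  · intro i j hi hj
    have hi' : c i = p ∨ c i = q := by
      rcases hi with h | h | h <;> rw [h] <;> assumption
    have hj' : c j = r ∨ c j = t := by
      rcases hj with h | h | h <;> rw [h] <;> assumption
    rcases hi' with h | h <;> rcases hj' with h' | h' <;> rw [h, h'] <;> assumption

omit [DecidableEq α] in
/-- the final contradiction when the core and one pair of hubs share a colour -/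
lemma contra (u a1 a2 a3 b1 b2 b3 x1 x2 y : α)
    (fa1 : u = a1 ∨ x1 = a1 ∨ y = a1) (fb1 : u = b1 ∨ x2 = b1 ∨ y = b1)
    (fa2 : u = a2 ∨ x1 = a2) (fa3 : u = a3 ∨ x1 = a3)
    (fb2 : u = b2 ∨ x2 = b2) (fb3 : u = b3 ∨ x2 = b3)
    (fx1 : (a1 = x1 ∧ a2 = x1) ∨ (a1 = x1 ∧ a3 = x1) ∨ (a2 = x1 ∧ a3 = x1))
    (fx2 : (b1 = x2 ∧ b2 = x2) ∨ (b1 = x2 ∧ b3 = x2) ∨ (b2 = x2 ∧ b3 = x2))
    (na : ¬ (a1 = a2 ∧ a1 = a3)) (nb : ¬ (b1 = b2 ∧ b1 = b3))
    (n11 : a1 ≠ b1) (n12 : a1 ≠ b2) (_n13 : a1 ≠ b3) (n21 : a2 ≠ b1) (n22 : a2 ≠ b2)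
    (n23 : a2 ≠ b3) (_n31 : a3 ≠ b1) (n32 : a3 ≠ b2) (_n33 : a3 ≠ b3)
    (hu : (u = a1 ∧ u = a2) ∨ (u = a1 ∧ u = a3) ∨ (u = a2 ∧ u = a3) ∨
      (u = b1 ∧ u = b2) ∨ (u = b1 ∧ u = b3) ∨ (u = b2 ∧ u = b3)) : False := by
  grind

lemma three01 {k : ℕ} {c : Fin 20 → Fin k} (F : Facts c) (hs : Function.Surjective c)
    (h0 : Core3 (c 0) (c 2) (c 3) (c 6))
    (h1 : Core3 (c 1) (c 2) (c 4) (c 7))
    (h2 : Core4 (c 2) (c 0) (c 1) (c 5) (c 8)) : k ≤ 3 := by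
  unfold Core3 at h0 h1
  unfold Core4 at h2
  refine three F hs ?_ ?_ ?_ ?_
  · clear F hs; generalize c 0 = u0, c 1 = u1, c 2 = u2, c 3 = a1, c 4 = a2, c 5 = a3, c 6 = b1, c 7 = b2, c 8 = b3 at *; grind
  · clear F hs; generalize c 0 = u0, c 1 = u1, c 2 = u2, c 3 = a1, c 4 = a2, c 5 = a3, c 6 = b1, c 7 = b2, c 8 = b3 at *; grind
  · clear F hs; generalize c 0 = u0, c 1 = u1, c 2 = u2, c 3 = a1, c 4 = a2, c 5 = a3, c 6 = b1, c 7 = b2, c 8 = b3 at *; grind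
  · intro na nb hne
    have ni := hne 3 6 (by decide) (by decide)
    have nj := hne 4 7 (by decide) (by decide)
    have ei : c 2 = c 0 ∧ (c 2 = c 3 ∨ c 2 = c 6) := by
      rcases h0 with ⟨g, g'⟩ | ⟨g, g'⟩ | ⟨g, g'⟩
      · exact ⟨g, Or.inl (g.trans g'.symm)⟩
      · exact ⟨g, Or.inr (g.trans g'.symm)⟩
      · exact absurd (g.trans g'.symm) ni
    have ej : c 2 = c 1 ∧ (c 2 = c 4 ∨ c 2 = c 7) := by
      rcases h1 with ⟨g, g'⟩ | ⟨g, g'⟩ | ⟨g, g'⟩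
      · exact ⟨g, Or.inl (g.trans g'.symm)⟩
      · exact ⟨g, Or.inr (g.trans g'.symm)⟩
      · exact absurd (g.trans g'.symm) nj
    have nij := hne 3 7 (by decide) (by decide)
    have nji := hne 4 6 (by decide) (by decide)
    have hu : (c 2 = c 3 ∧ c 2 = c 4) ∨ (c 2 = c 6 ∧ c 2 = c 7) := by
      rcases ei.2 with g | g <;> rcases ej.2 with g' | g'
      · exact Or.inl ⟨g, g'⟩
      · exact absurd (g.symm.trans g') nij
      · exact absurd (g'.symm.trans g) nji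
      · exact Or.inr ⟨g, g'⟩
    have f0 := ei.1
    have f1 := ej.1
    have f2 : c 2 = c 2 := rfl
    refine contra (c 2) (c 3) (c 4) (c 5) (c 6) (c 7) (c 8) (c 9) (c 10) (c 11) ?_ ?_ ?_ ?_ ?_ ?_
      F.x1 F.x2 na nb (hne _ _ (by decide) (by decide)) (hne _ _ (by decide) (by decide))
      (hne _ _ (by decide) (by decide)) (hne _ _ (by decide) (by decide))
      (hne _ _ (by decide) (by decide)) (hne _ _ (by decide) (by decide))
      (hne _ _ (by decide) (by decide)) (hne _ _ (by decide) (by decide))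
      (hne _ _ (by decide) (by decide)) ?_
    · rw [f0]; exact F.a1
    · rw [f0]; exact F.b1
    · rw [f1]; exact F.a2
    · rw [f2]; exact F.a3
    · rw [f1]; exact F.b2
    · rw [f2]; exact F.b3
    · rcases hu with g | g
      · exact Or.inl g
      · exact Or.inr (Or.inr (Or.inr (Or.inl g)))

lemma three02 {k : ℕ} {c : Fin 20 → Fin k} (F : Facts c) (hs : Function.Surjective c)
    (h0 : Core3 (c 0) (c 1) (c 3) (c 6))
    (h1 : Core4 (c 1) (c 0) (c 2) (c 4) (c 7))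
    (h2 : Core3 (c 2) (c 1) (c 5) (c 8)) : k ≤ 3 := by
  unfold Core3 at h0 h2
  unfold Core4 at h1
  refine three F hs ?_ ?_ ?_ ?_
  · clear F hs; generalize c 0 = u0, c 1 = u1, c 2 = u2, c 3 = a1, c 4 = a2, c 5 = a3, c 6 = b1, c 7 = b2, c 8 = b3 at *; grind
  · clear F hs; generalize c 0 = u0, c 1 = u1, c 2 = u2, c 3 = a1, c 4 = a2, c 5 = a3, c 6 = b1, c 7 = b2, c 8 = b3 at *; grind
  · clear F hs; generalize c 0 = u0, c 1 = u1, c 2 = u2, c 3 = a1, c 4 = a2, c 5 = a3, c 6 = b1, c 7 = b2, c 8 = b3 at *; grind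
  · intro na nb hne
    have ni := hne 3 6 (by decide) (by decide)
    have nj := hne 5 8 (by decide) (by decide)
    have ei : c 1 = c 0 ∧ (c 1 = c 3 ∨ c 1 = c 6) := by
      rcases h0 with ⟨g, g'⟩ | ⟨g, g'⟩ | ⟨g, g'⟩
      · exact ⟨g, Or.inl (g.trans g'.symm)⟩
      · exact ⟨g, Or.inr (g.trans g'.symm)⟩
      · exact absurd (g.trans g'.symm) ni
    have ej : c 1 = c 2 ∧ (c 1 = c 5 ∨ c 1 = c 8) := by
      rcases h2 with ⟨g, g'⟩ | ⟨g, g'⟩ | ⟨g, g'⟩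
      · exact ⟨g, Or.inl (g.trans g'.symm)⟩
      · exact ⟨g, Or.inr (g.trans g'.symm)⟩
      · exact absurd (g.trans g'.symm) nj
    have nij := hne 3 8 (by decide) (by decide)
    have nji := hne 5 6 (by decide) (by decide)
    have hu : (c 1 = c 3 ∧ c 1 = c 5) ∨ (c 1 = c 6 ∧ c 1 = c 8) := by
      rcases ei.2 with g | g <;> rcases ej.2 with g' | g'
      · exact Or.inl ⟨g, g'⟩
      · exact absurd (g.symm.trans g') nij
      · exact absurd (g'.symm.trans g) nji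
      · exact Or.inr ⟨g, g'⟩
    have f0 := ei.1
    have f2 := ej.1
    have f1 : c 1 = c 1 := rfl
    refine contra (c 1) (c 3) (c 4) (c 5) (c 6) (c 7) (c 8) (c 9) (c 10) (c 11) ?_ ?_ ?_ ?_ ?_ ?_
      F.x1 F.x2 na nb (hne _ _ (by decide) (by decide)) (hne _ _ (by decide) (by decide))
      (hne _ _ (by decide) (by decide)) (hne _ _ (by decide) (by decide))
      (hne _ _ (by decide) (by decide)) (hne _ _ (by decide) (by decide))
      (hne _ _ (by decide) (by decide)) (hne _ _ (by decide) (by decide))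
      (hne _ _ (by decide) (by decide)) ?_
    · rw [f0]; exact F.a1
    · rw [f0]; exact F.b1
    · rw [f1]; exact F.a2
    · rw [f2]; exact F.a3
    · rw [f1]; exact F.b2
    · rw [f2]; exact F.b3
    · rcases hu with g | g
      · exact Or.inr (Or.inl g)
      · exact Or.inr (Or.inr (Or.inr (Or.inr (Or.inl g))))

lemma three12 {k : ℕ} {c : Fin 20 → Fin k} (F : Facts c) (hs : Function.Surjective c)
    (h0 : Core4 (c 0) (c 1) (c 2) (c 3) (c 6))
    (h1 : Core3 (c 1) (c 0) (c 4) (c 7))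
    (h2 : Core3 (c 2) (c 0) (c 5) (c 8)) : k ≤ 3 := by
  unfold Core3 at h1 h2
  unfold Core4 at h0
  refine three F hs ?_ ?_ ?_ ?_
  · clear F hs; generalize c 0 = u0, c 1 = u1, c 2 = u2, c 3 = a1, c 4 = a2, c 5 = a3, c 6 = b1, c 7 = b2, c 8 = b3 at *; grind
  · clear F hs; generalize c 0 = u0, c 1 = u1, c 2 = u2, c 3 = a1, c 4 = a2, c 5 = a3, c 6 = b1, c 7 = b2, c 8 = b3 at *; grind
  · clear F hs; generalize c 0 = u0, c 1 = u1, c 2 = u2, c 3 = a1, c 4 = a2, c 5 = a3, c 6 = b1, c 7 = b2, c 8 = b3 at *; grind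
  · intro na nb hne
    have ni := hne 4 7 (by decide) (by decide)
    have nj := hne 5 8 (by decide) (by decide)
    have ei : c 0 = c 1 ∧ (c 0 = c 4 ∨ c 0 = c 7) := by
      rcases h1 with ⟨g, g'⟩ | ⟨g, g'⟩ | ⟨g, g'⟩
      · exact ⟨g, Or.inl (g.trans g'.symm)⟩
      · exact ⟨g, Or.inr (g.trans g'.symm)⟩
      · exact absurd (g.trans g'.symm) ni
    have ej : c 0 = c 2 ∧ (c 0 = c 5 ∨ c 0 = c 8) := by
      rcases h2 with ⟨g, g'⟩ | ⟨g, g'⟩ | ⟨g, g'⟩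
      · exact ⟨g, Or.inl (g.trans g'.symm)⟩
      · exact ⟨g, Or.inr (g.trans g'.symm)⟩
      · exact absurd (g.trans g'.symm) nj
    have nij := hne 4 8 (by decide) (by decide)
    have nji := hne 5 7 (by decide) (by decide)
    have hu : (c 0 = c 4 ∧ c 0 = c 5) ∨ (c 0 = c 7 ∧ c 0 = c 8) := by
      rcases ei.2 with g | g <;> rcases ej.2 with g' | g'
      · exact Or.inl ⟨g, g'⟩
      · exact absurd (g.symm.trans g') nij
      · exact absurd (g'.symm.trans g) nji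
      · exact Or.inr ⟨g, g'⟩
    have f1 := ei.1
    have f2 := ej.1
    have f0 : c 0 = c 0 := rfl
    refine contra (c 0) (c 3) (c 4) (c 5) (c 6) (c 7) (c 8) (c 9) (c 10) (c 11) ?_ ?_ ?_ ?_ ?_ ?_
      F.x1 F.x2 na nb (hne _ _ (by decide) (by decide)) (hne _ _ (by decide) (by decide))
      (hne _ _ (by decide) (by decide)) (hne _ _ (by decide) (by decide))
      (hne _ _ (by decide) (by decide)) (hne _ _ (by decide) (by decide))
      (hne _ _ (by decide) (by decide)) (hne _ _ (by decide) (by decide))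
      (hne _ _ (by decide) (by decide)) ?_
    · rw [f0]; exact F.a1
    · rw [f0]; exact F.b1
    · rw [f1]; exact F.a2
    · rw [f2]; exact F.a3
    · rw [f1]; exact F.b2
    · rw [f2]; exact F.b3
    · rcases hu with g | g
      · exact Or.inr (Or.inr (Or.inl g))
      · exact Or.inr (Or.inr (Or.inr (Or.inr (Or.inr g))))

end upper


lemma cond_del {k : ℕ} (a b : Fin 20) (c : Fin 20 → Fin k)
    (h : IsMajC (ex.deleteEdges {s(a, b)}) k c) (v : Fin 20) : Cond c v (nblD a b v) :=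
  (maj_iff _ _ (adj_del a b) (nblD_nodup a b) c v).1 (h.2 v)

lemma mc_ex : mc ex = 4 := by
  apply le_antisymm _ four_le
  apply mc_le
  intro k c hc
  have h : ∀ v, Cond c v (nbl v) := fun v =>
    (maj_iff ex nbl (fun _ _ => Iff.rfl) nbl_nodup c v).1 (hc.2 v)
  have F := facts_of c nbl h (fun _ _ => rfl)
  exact four F hc.1 (cond4 (h 0)) (cond4 (h 1)) (cond4 (h 2))

lemma core01 : ∀ v : Fin 20, 3 ≤ (v : ℕ) → nblD 0 1 v = nbl v := by decide +kernel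
lemma core02 : ∀ v : Fin 20, 3 ≤ (v : ℕ) → nblD 0 2 v = nbl v := by decide +kernel
lemma core12 : ∀ v : Fin 20, 3 ≤ (v : ℕ) → nblD 1 2 v = nbl v := by decide +kernel

lemma down01 : mc (ex.deleteEdges {s(0, 1)}) ≤ 3 := by
  apply mc_le
  intro k c hc
  have h := cond_del 0 1 c hc
  have F := facts_of c _ h core01
  exact three01 F hc.1 (cond3 (h 0)) (cond3 (h 1)) (cond4 (h 2))

lemma down02 : mc (ex.deleteEdges {s(0, 2)}) ≤ 3 := by
  apply mc_le
  intro k c hc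
  have h := cond_del 0 2 c hc
  have F := facts_of c _ h core02
  exact three02 F hc.1 (cond3 (h 0)) (cond4 (h 1)) (cond3 (h 2))

lemma down12 : mc (ex.deleteEdges {s(1, 2)}) ≤ 3 := by
  apply mc_le
  intro k c hc
  have h := cond_del 1 2 c hc
  have F := facts_of c _ h core12
  exact three12 F hc.1 (cond4 (h 0)) (cond3 (h 1)) (cond3 (h 2))

lemma edges_ok : ∀ v w : Fin 20, w ∈ nbl v →
    (v, w) ∈ ups.map Prod.fst ∨ (w, v) ∈ ups.map Prod.fst ∨ (v, w) ∈ [((0 : Fin 20), (1 : Fin 20)), (0, 2), (1, 2)] ∨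
      (w, v) ∈ [((0 : Fin 20), (1 : Fin 20)), (0, 2), (1, 2)] := by decide +kernel

lemma up_of_mem {v w : Fin 20} (h : (v, w) ∈ ups.map Prod.fst) :
    5 ≤ mc (ex.deleteEdges {s(v, w)}) := by
  rw [List.mem_map] at h
  obtain ⟨p, hp, e⟩ := h
  have := up_edge p hp
  rwa [e] at this

lemma down_of_mem {v w : Fin 20}
    (h : (v, w) ∈ [((0 : Fin 20), (1 : Fin 20)), (0, 2), (1, 2)]) :
    mc (ex.deleteEdges {s(v, w)}) ≤ 3 := by
  simp only [List.mem_cons, List.not_mem_nil, or_false, Prod.mk.injEq] at h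
  rcases h with ⟨rfl, rfl⟩ | ⟨rfl, rfl⟩ | ⟨rfl, rfl⟩
  · exact down01
  · exact down02
  · exact down12

/-- There is an mc-edge-critical graph with at least two edges which has an edge whose deletion
decreases `mc` and an edge whose deletion increases `mc`. -/
theorem result : ∃ (V : Type) (_ : Finite V) (G : SimpleGraph V), 2 ≤ G.edgeSet.ncard ∧
    Critical G ∧ ∃ e ∈ G.edgeSet, ∃ f ∈ G.edgeSet,
      mc (G.deleteEdges {e}) < mc G ∧ mc G < mc (G.deleteEdges {f}) := by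
  have e1 : s(0, 1) ∈ ex.edgeSet := by
    rw [SimpleGraph.mem_edgeSet]
    show (1 : Fin 20) ∈ nbl 0
    decide
  have e2 : s(0, 3) ∈ ex.edgeSet := by
    rw [SimpleGraph.mem_edgeSet]
    show (3 : Fin 20) ∈ nbl 0
    decide
  have up : 5 ≤ mc (ex.deleteEdges {s(0, 3)}) := up_of_mem (by decide)
  refine ⟨Fin 20, inferInstance, ex, ?_, ⟨⟨_, e1⟩, ?_⟩, s(0, 1), e1, s(0, 3), e2, ?_, ?_⟩
  · have : ({s(0, 1), s(0, 3)} : Set (Sym2 (Fin 20))) ⊆ ex.edgeSet := by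
      rintro x (rfl | rfl)
      · exact e1
      · exact e2
    have h := Set.ncard_le_ncard this (Set.toFinite _)
    rwa [Set.ncard_pair (by decide)] at h
  · intro e he
    rw [mc_ex]
    induction e using Sym2.ind with
    | _ v w =>
      rw [SimpleGraph.mem_edgeSet] at he
      rcases edges_ok v w he with h | h | h | h
      · have := up_of_mem h
        omega
      · have := up_of_mem h
        rw [Sym2.eq_swap] at this
        omega
      · have := down_of_mem h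
        omega
      · have := down_of_mem h
        rw [Sym2.eq_swap] at this
        omega
  · rw [mc_ex]
    have := down01
    omega
  · rw [mc_ex]
    omega

end Pool.Agent.Results.MP_232fda_co.MixedCritical
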